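import Pool.Agent.Lib.MP_a9e7a9_an.Unit

set_option autoImplicit false

namespace Pool.Agent.Lib.MP_a9e7a9_an

open NormedSpace Filter

variable {𝓒 : Type*} [NormedRing 𝓒] [NormedAlgebra ℂ 𝓒]

/-- left multiplication as a ring homomorphism -/
noncomputable def lm : 𝓒 →+* (𝓒 →L[ℂ] 𝓒) where
  toFun a := ContinuousLinearMap.mul ℂ 𝓒 a
  map_one' := by ext; simp
  map_mul' a b := by ext; simp [mul_assoc]
  map_zero' := by ext; simp
  map_add' a b := by ext; simp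

/-- right multiplication as a ring homomorphism -/
noncomputable def rm : 𝓒ᵐᵒᵖ →+* (𝓒 →L[ℂ] 𝓒) where
  toFun a := (ContinuousLinearMap.mul ℂ 𝓒).flip a.unop
  map_one' := by ext; simp
  map_mul' a b := by ext; simp [mul_assoc]
  map_zero' := by ext; simp
  map_add' a b := by ext; simp

@[simp] lemma lm_apply (a x : 𝓒) : lm a x = a * x := rfl

@[simp] lemma rm_apply (a : 𝓒ᵐᵒᵖ) (x : 𝓒) : rm a x = x * a.unop := rfl

lemma continuous_lm : Continuous (lm : 𝓒 → (𝓒 →L[ℂ] 𝓒)) :=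
  (ContinuousLinearMap.mul ℂ 𝓒).continuous

lemma continuous_rm : Continuous (rm : 𝓒ᵐᵒᵖ → (𝓒 →L[ℂ] 𝓒)) :=
  ((ContinuousLinearMap.mul ℂ 𝓒).flip.continuous).comp MulOpposite.continuous_unop

/-- inner derivation -/
noncomputable def ad (A : 𝓒) : 𝓒 →L[ℂ] 𝓒 := lm A - rm (MulOpposite.op A)

lemma ad_apply (A x : 𝓒) : ad A x = A * x - x * A := rfl

lemma exp_ad [CompleteSpace 𝓒] (A : 𝓒) (s : ℂ) (x : 𝓒) :
    exp (s • ad A) x = exp (s • A) * x * exp (-(s • A)) := by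
  let _ : NormedAlgebra ℚ 𝓒 := NormedAlgebra.restrictScalars ℚ ℂ 𝓒
  let _ : NormedAlgebra ℚ (𝓒 →L[ℂ] 𝓒) := NormedAlgebra.restrictScalars ℚ ℂ (𝓒 →L[ℂ] 𝓒)
  have h1 : s • ad A = lm (s • A) + rm (MulOpposite.op (-(s • A))) := by
    ext y
    simp [ad_apply, sub_eq_add_neg]
  have h2 : Commute (lm (s • A)) (rm (MulOpposite.op (-(s • A)))) := by
    ext y
    simp [mul_assoc]
  have h3 : exp (lm (s • A)) = lm (exp (s • A)) := (map_exp lm continuous_lm _).symm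
  have h4 : exp (rm (MulOpposite.op (-(s • A)))) = rm (MulOpposite.op (exp (-(s • A)))) := by
    rw [← exp_op]
    exact (map_exp (rm : 𝓒ᵐᵒᵖ →+* (𝓒 →L[ℂ] 𝓒)) continuous_rm _).symm
  rw [h1, exp_add_of_commute h2, h3, h4]
  simp [mul_assoc]

end Pool.Agent.Lib.MP_a9e7a9_an
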