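import Pool.Agent.Lib.MP_a9e7a9_an.Comm

set_option autoImplicit false

namespace Pool.Agent.Lib.MP_a9e7a9_an

open NormedSpace Filter

variable {𝓒 : Type*} [CStarAlgebra 𝓒]

lemma exp_I_mem_unitary {A : 𝓒} (hA : IsSelfAdjoint A) (s : ℝ) :
    exp (((s : ℂ) * Complex.I) • A) ∈ unitary 𝓒 := by
  let _ : NormedAlgebra ℚ 𝓒 := NormedAlgebra.restrictScalars ℚ ℂ 𝓒
  apply exp_mem_unitary_of_mem_skewAdjoint
  rw [skewAdjoint.mem_iff, star_smul, hA.star_eq]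
  simp

lemma norm_exp_ad_le {A : 𝓒} (hA : IsSelfAdjoint A) (s : ℝ) :
    ‖exp (((s : ℂ) * Complex.I) • ad A)‖ ≤ 1 := by
  refine ContinuousLinearMap.opNorm_le_bound _ zero_le_one (fun x => ?_)
  rw [exp_ad, one_mul]
  have h3 : -(((s : ℂ) * Complex.I) • A) = (((-s : ℝ) : ℂ) * Complex.I) • A := by
    rw [← neg_smul]; congr 1; push_cast; ring
  rw [h3, CStarRing.norm_mul_mem_unitary _ (exp_I_mem_unitary hA (-s)),
    CStarRing.norm_mem_unitary_mul _ (exp_I_mem_unitary hA s)]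

theorem commute_of_fixed {A X : 𝓒} (hA : IsSelfAdjoint A) {l : ℝ} (hl0 : 0 < l) (hl1 : l < 1)
    (h : exp ((l : ℂ) • A) * X * exp (-((l : ℂ) • A))
      + exp (((1 - l : ℝ) : ℂ) • A) * X * exp (-(((1 - l : ℝ) : ℂ) • A)) = 2 * X) :
    A * X = X * A := by
  rcases subsingleton_or_nontrivial 𝓒 with hs | hs
  · exact Subsingleton.elim _ _
  · let 𝓓 := Algebra.elemental ℂ (ad A)
    let _ : NormedCommRing 𝓓 := { (inferInstance : NormedRing 𝓓) with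
      mul_comm := mul_comm }
    have : CompleteSpace 𝓓 := inferInstance
    have : NormOneClass 𝓓 := ⟨by
      show ‖((1 : 𝓓) : 𝓒 →L[ℂ] 𝓒)‖ = 1
      simp⟩
    let d : 𝓓 := ⟨ad A, Algebra.elemental.self_mem ℂ (ad A)⟩
    have hcoe : ∀ c : ℂ, ((exp (c • d) : 𝓓) : 𝓒 →L[ℂ] 𝓒) = exp (c • ad A) := by
      intro c
      let _ : NormedAlgebra ℚ 𝓓 := NormedAlgebra.restrictScalars ℚ ℂ 𝓓
      let _ : NormedAlgebra ℚ (𝓒 →L[ℂ] 𝓒) := NormedAlgebra.restrictScalars ℚ ℂ (𝓒 →L[ℂ] 𝓒)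
      have : Continuous (Subalgebra.val 𝓓) := continuous_subtype_val
      exact map_exp (Subalgebra.val 𝓓) this (c • d)
    have hI : ∀ s : ℝ, ‖exp (((s : ℂ) * Complex.I) • d)‖ ≤ 1 := by
      intro s
      show ‖((exp (((s : ℂ) * Complex.I) • d) : 𝓓) : 𝓒 →L[ℂ] 𝓒)‖ ≤ 1
      rw [hcoe]
      exact norm_exp_ad_le hA s
    have hU : IsUnit (ww l d) := by
      refine isUnit_w d ?_ ?_ hl0 hl1
      · have := hI 1
        simpa using this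
      · have := hI (-1)
        simpa using this
    have hfac := mul_ww l d
    -- transport to operators
    have h1 : ((exp ((l : ℂ) • d) + exp (((1 - l : ℝ) : ℂ) • d) - 2 : 𝓓) : 𝓒 →L[ℂ] 𝓒) X = 0 := by
      have e1 : ((exp ((l : ℂ) • d) + exp (((1 - l : ℝ) : ℂ) • d) - 2 : 𝓓) : 𝓒 →L[ℂ] 𝓒)
          = exp ((l : ℂ) • ad A) + exp (((1 - l : ℝ) : ℂ) • ad A) - 2 := by
        rw [← hcoe, ← hcoe]; rfl
      rw [e1]
      simp only [sub_apply, add_apply]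
      rw [exp_ad, exp_ad, h]
      have : (2 : 𝓒 →L[ℂ] 𝓒) X = 2 * X := by
        rw [show (2 : 𝓒 →L[ℂ] 𝓒) = 1 + 1 by norm_num]
        simp [two_mul]
      rw [this, sub_self]
    rw [hfac, mul_comm] at h1
    obtain ⟨u, hu⟩ := hU
    rw [← hu] at h1
    have h2 : ((↑u⁻¹ * (↑u * d) : 𝓓) : 𝓒 →L[ℂ] 𝓒) X = 0 := by
      have : ((↑u⁻¹ * (↑u * d) : 𝓓) : 𝓒 →L[ℂ] 𝓒) X
          = ((↑u⁻¹ : 𝓓) : 𝓒 →L[ℂ] 𝓒) (((↑u * d : 𝓓) : 𝓒 →L[ℂ] 𝓒) X) := rfl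
      rw [this, h1, map_zero]
    rw [← mul_assoc, Units.inv_mul, one_mul] at h2
    have h3 : ad A X = 0 := h2
    rw [ad_apply, sub_eq_zero] at h3
    exact h3

end Pool.Agent.Lib.MP_a9e7a9_an
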