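import Pool.Agent.Lib.MP_a9e7a9_an.Comm2

set_option autoImplicit false

namespace Pool.Agent.Lib.MP_a9e7a9_an

open NormedSpace Filter

variable {𝓒 : Type*} [CStarAlgebra 𝓒] [PartialOrder 𝓒] [StarOrderedRing 𝓒]

/-- `log (max P ε)` -/
noncomputable def lg (P : 𝓒) (ε : ℝ) : 𝓒 := cfc (fun x : ℝ => Real.log (max x ε)) P

/-- `(P - ε)₊` -/
noncomputable def ct (P : 𝓒) (ε : ℝ) : 𝓒 := cfc (fun x : ℝ => max (x - ε) 0) P

lemma cont_log (ε : ℝ) (hε : 0 < ε) : Continuous (fun x : ℝ => Real.log (max x ε)) := by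
  refine Continuous.log (by fun_prop) (fun x => ?_)
  have : 0 < max x ε := lt_max_of_lt_right hε
  exact this.ne'

lemma lg_selfAdjoint (P : 𝓒) (ε : ℝ) : IsSelfAdjoint (lg P ε) := cfc_predicate _ _

lemma exp_lg {P : 𝓒} (hP : 0 ≤ P) {ε : ℝ} (hε : 0 < ε) (s : ℝ) :
    exp ((s : ℂ) • lg P ε) = cfc (fun x : ℝ => Real.exp (s * Real.log (max x ε))) P := by
  have hc := cont_log ε hε
  have h1 : (s : ℂ) • lg P ε = cfc (fun x : ℝ => s * Real.log (max x ε)) P := by
    rw [lg, cfc_const_mul s (fun x : ℝ => Real.log (max x ε)) P hc.continuousOn]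
    rw [← Complex.coe_smul]
  rw [h1, ← CFC.real_exp_eq_normedSpace_exp (cfc_predicate _ _)]
  rw [← cfc_comp' Real.exp (fun x : ℝ => s * Real.log (max x ε)) P
    Real.continuous_exp.continuousOn (continuous_const.mul hc).continuousOn]

lemma rpow_mul_ct {P : 𝓒} (hP : 0 ≤ P) {ε : ℝ} (hε : 0 < ε) {s : ℝ} (hs : 0 ≤ s) :
    P ^ s * ct P ε = exp ((s : ℂ) • lg P ε) * ct P ε := by
  have hc := cont_log ε hε
  have hc2 : Continuous (fun x : ℝ => x ^ s) := Real.continuous_rpow_const hs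
  have hc3 : Continuous (fun x : ℝ => max (x - ε) 0) := by fun_prop
  have hc4 : Continuous (fun x : ℝ => Real.exp (s * Real.log (max x ε))) :=
    Real.continuous_exp.comp (continuous_const.mul hc)
  rw [exp_lg hP hε, CFC.rpow_eq_cfc_real, ct,
    ← cfc_mul (fun x : ℝ => x ^ s) (fun x => max (x - ε) 0) P hc2.continuousOn hc3.continuousOn,
    ← cfc_mul (fun x : ℝ => Real.exp (s * Real.log (max x ε))) (fun x => max (x - ε) 0) P
      hc4.continuousOn hc3.continuousOn]
  refine cfc_congr (fun x hx => ?_)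
  have hx0 : 0 ≤ x := spectrum_nonneg_of_nonneg hP hx
  rcases le_or_gt x ε with h | h
  · simp only [max_eq_right (show x - ε ≤ 0 by linarith), mul_zero]
  · simp only [max_eq_left h.le]
    congr 1
    rw [Real.rpow_def_of_pos (by linarith), mul_comm]

lemma ct_commute_rpow (P : 𝓒) (hP : 0 ≤ P) (ε s : ℝ) : Commute (ct P ε) (P ^ s) := by
  rw [ct, CFC.rpow_eq_cfc_real]
  exact cfc_commute_cfc _ _ _

lemma norm_sub_ct_le {P : 𝓒} (hP : 0 ≤ P) {ε : ℝ} (hε : 0 < ε) : ‖P - ct P ε‖ ≤ ε := by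
  have h1 : P - ct P ε = cfc (fun x : ℝ => x - max (x - ε) 0) P := by
    rw [cfc_sub (fun x : ℝ => x) (fun x => max (x - ε) 0) P (by fun_prop) (by fun_prop),
      cfc_id' ℝ P, ct]
  rw [h1]
  refine norm_cfc_le hε.le (fun x hx => ?_)
  have hx0 : 0 ≤ x := spectrum_nonneg_of_nonneg hP hx
  rw [Real.norm_eq_abs, abs_le]
  rcases le_or_gt x ε with h | h
  · rw [max_eq_right (by linarith)]; constructor <;> linarith
  · rw [max_eq_left (by linarith)]; constructor <;> linarith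

lemma cut_commute {P V : 𝓒} (hP : 0 ≤ P) {l : ℝ} (hl0 : 0 < l) (hl1 : l < 1)
    (h : P ^ l * V * P ^ (1 - l) + P ^ (1 - l) * V * P ^ l = 2 * (V * P)) {ε : ℝ} (hε : 0 < ε) :
    ct P ε * (P * V - V * P) * ct P ε = 0 := by
  let _ : NormedAlgebra ℚ 𝓒 := NormedAlgebra.restrictScalars ℚ ℂ 𝓒
  set f := ct P ε with hf
  set A := lg P ε with hA
  have hAs : IsSelfAdjoint A := lg_selfAdjoint P ε
  set G : ℝ → 𝓒 := fun s => exp ((s : ℂ) • A) with hG
  have hGneg : ∀ s : ℝ, exp (-((s : ℂ) • A)) = G (-s) := by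
    intro s; simp only [hG]; congr 1; rw [← neg_smul]; push_cast; rfl
  have hGadd : ∀ s t : ℝ, G s * G t = G (s + t) := by
    intro s t
    simp only [hG]
    rw [← exp_add_of_commute ((Commute.refl A).smul_left _ |>.smul_right _), ← add_smul]
    push_cast; rfl
  have hG0 : G 0 = 1 := by simp [hG]
  have hGf : ∀ s : ℝ, 0 ≤ s → P ^ s * f = G s * f := fun s hs => rpow_mul_ct hP hε hs
  have hfG : ∀ s : ℝ, 0 ≤ s → f * P ^ s = f * G s := by
    intro s hs
    have h1 : f * P ^ s = P ^ s * f := ct_commute_rpow P hP ε s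
    have h2 : Commute f (G s) := by
      simp only [hG, hf, hA]
      rw [exp_lg hP hε, ct]
      exact cfc_commute_cfc _ _ _
    rw [h1, hGf s hs, h2.eq]
  have hcom : ∀ s : ℝ, f * P ^ s = P ^ s * f := fun s => ct_commute_rpow P hP ε s
  have hP1 : P ^ (1 : ℝ) = P := CFC.rpow_one P
  set X := f * V * f with hX
  have e1 : G l * X * G (1 - l) = f * (P ^ l * V * P ^ (1 - l)) * f := by
    calc G l * X * G (1 - l) = (G l * f) * V * (f * G (1 - l)) := by rw [hX]; noncomm_ring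
      _ = (f * P ^ l) * V * (P ^ (1 - l) * f) := by
          rw [← hGf l hl0.le, ← hfG (1 - l) (by linarith), hcom, hcom]
      _ = _ := by noncomm_ring
  have e2 : G (1 - l) * X * G l = f * (P ^ (1 - l) * V * P ^ l) * f := by
    calc G (1 - l) * X * G l = (G (1 - l) * f) * V * (f * G l) := by rw [hX]; noncomm_ring
      _ = (f * P ^ (1 - l)) * V * (P ^ l * f) := by
          rw [← hGf (1 - l) (by linarith), ← hfG l hl0.le, hcom, hcom]
      _ = _ := by noncomm_ring
  have e3 : f * (2 * (V * P)) * f = 2 * X * G 1 := by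
    have h1 : f * P = f * G 1 := by have := hfG 1 zero_le_one; rwa [hP1] at this
    have h2 : P * f = f * P := by have := hcom 1; rw [hP1] at this; exact this.symm
    calc f * (2 * (V * P)) * f = 2 * (f * V * (P * f)) := by noncomm_ring
      _ = 2 * (f * V * (f * G 1)) := by rw [h2, h1]
      _ = 2 * X * G 1 := by rw [hX]; noncomm_ring
  have e4 : G l * X * G (1 - l) + G (1 - l) * X * G l = 2 * X * G 1 := by
    rw [e1, e2, ← e3, ← h]; noncomm_ring
  have e5 : exp ((l : ℂ) • A) * X * exp (-((l : ℂ) • A))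
      + exp (((1 - l : ℝ) : ℂ) • A) * X * exp (-(((1 - l : ℝ) : ℂ) • A)) = 2 * X := by
    rw [hGneg, hGneg]
    show G l * X * G (-l) + G (1 - l) * X * G (-(1 - l)) = 2 * X
    have h1 : G (-l) = G (1 - l) * G (-1) := by rw [hGadd]; congr 1; ring
    have h2 : G (-(1 - l)) = G l * G (-1) := by rw [hGadd]; congr 1; ring
    have h3 : G 1 * G (-1) = 1 := by rw [hGadd, add_neg_cancel, hG0]
    calc G l * X * G (-l) + G (1 - l) * X * G (-(1 - l))
        = (G l * X * G (1 - l) + G (1 - l) * X * G l) * G (-1) := by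
          rw [h1, h2]; noncomm_ring
      _ = 2 * X * (G 1 * G (-1)) := by rw [e4]; noncomm_ring
      _ = 2 * X := by rw [h3, mul_one]
  have hAX : A * X = X * A := commute_of_fixed hAs hl0 hl1 e5
  have hGX : G 1 * X = X * G 1 := by
    have h1 : Commute X A := hAX.symm
    exact ((h1.smul_right ((1 : ℝ) : ℂ)).exp_right).symm.eq
  have e6 : P * f * V * f = f * V * (f * P) := by
    have h1 : P * f = G 1 * f := by have := hGf 1 zero_le_one; rwa [hP1] at this
    have h2 : f * P = f * G 1 := by have := hfG 1 zero_le_one; rwa [hP1] at this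
    calc P * f * V * f = G 1 * X := by rw [h1, hX]; noncomm_ring
      _ = X * G 1 := hGX
      _ = f * V * (f * P) := by rw [h2, hX]; noncomm_ring
  have h2 : P * f = f * P := by have := hcom 1; rw [hP1] at this; exact this.symm
  calc f * (P * V - V * P) * f = (f * P) * V * f - f * V * (P * f) := by noncomm_ring
    _ = P * f * V * f - f * V * (f * P) := by rw [h2]
    _ = 0 := by rw [e6, sub_self]

lemma sandwich {P V : 𝓒} (hP : 0 ≤ P) {l : ℝ} (hl0 : 0 < l) (hl1 : l < 1)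
    (h : P ^ l * V * P ^ (1 - l) + P ^ (1 - l) * V * P ^ l = 2 * (V * P)) :
    P * (P * V - V * P) * P = 0 := by
  set C := P * V - V * P with hC
  have hb : ∀ ε : ℝ, 0 < ε → ‖P * C * P‖ ≤ ε * (‖C‖ * (2 * ‖P‖ + ε)) := by
    intro ε hε
    have h0 := cut_commute hP hl0 hl1 h hε
    rw [← hC] at h0
    have h1 := norm_sub_ct_le hP hε
    set f := ct P ε
    have h2 : P * C * P = (P - f) * C * P + f * C * (P - f) := by
      calc P * C * P = (P - f) * C * P + f * C * (P - f) + f * C * f := by noncomm_ring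
        _ = _ := by rw [h0, add_zero]
    have h3 : ‖f‖ ≤ ‖P‖ + ε := by
      calc ‖f‖ = ‖P - (P - f)‖ := by congr 1; abel
        _ ≤ ‖P‖ + ‖P - f‖ := norm_sub_le _ _
        _ ≤ ‖P‖ + ε := by gcongr
    rw [h2]
    calc ‖(P - f) * C * P + f * C * (P - f)‖ ≤ ‖(P - f) * C * P‖ + ‖f * C * (P - f)‖ :=
          norm_add_le _ _
      _ ≤ ‖P - f‖ * ‖C‖ * ‖P‖ + ‖f‖ * ‖C‖ * ‖P - f‖ := by
          gcongr <;> exact (norm_mul_le _ _).trans (by gcongr; exact norm_mul_le _ _)
      _ ≤ ε * ‖C‖ * ‖P‖ + (‖P‖ + ε) * ‖C‖ * ε := by gcongr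
      _ = ε * (‖C‖ * (2 * ‖P‖ + ε)) := by ring
  have hlim : Tendsto (fun ε : ℝ => ε * (‖C‖ * (2 * ‖P‖ + ε))) (nhdsWithin 0 (Set.Ioi 0))
      (nhds 0) := by
    have : Tendsto (fun ε : ℝ => ε * (‖C‖ * (2 * ‖P‖ + ε))) (nhds 0)
        (nhds (0 * (‖C‖ * (2 * ‖P‖ + 0)))) := by
      apply Continuous.tendsto; fun_prop
    rw [zero_mul] at this
    exact this.mono_left nhdsWithin_le_nhds
  have := ge_of_tendsto hlim (eventually_nhdsWithin_of_forall (fun ε hε => hb ε hε))
  exact norm_le_zero_iff.1 this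

/-- Approximation of `P ^ s` by right multiples of `P`. -/
lemma rpow_approx {P : 𝓒} (hP : 0 ≤ P) {s : ℝ} (hs : 0 < s) (hs1 : s ≤ 1) {ε : ℝ} (hε : 0 < ε) :
    ∃ K : 𝓒, ‖P ^ s - K * P‖ ≤ ε ^ s := by
  have hc : Continuous (fun x : ℝ => (max x ε) ^ (s - 1)) := by
    refine Continuous.rpow_const (by fun_prop) (fun x => Or.inl ?_)
    have : 0 < max x ε := lt_max_of_lt_right hε
    exact this.ne'
  have hc2 : Continuous (fun x : ℝ => x ^ s) := Real.continuous_rpow_const hs.le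
  refine ⟨cfc (fun x : ℝ => (max x ε) ^ (s - 1)) P, ?_⟩
  have h1 : P ^ s - cfc (fun x : ℝ => (max x ε) ^ (s - 1)) P * P
      = cfc (fun x : ℝ => x ^ s - (max x ε) ^ (s - 1) * x) P := by
    rw [cfc_sub (fun x : ℝ => x ^ s) (fun x => (max x ε) ^ (s - 1) * x) P hc2.continuousOn
      (hc.mul continuous_id).continuousOn, cfc_mul (fun x : ℝ => (max x ε) ^ (s - 1)) (fun x => x) P
      hc.continuousOn continuousOn_id, cfc_id' ℝ P, CFC.rpow_eq_cfc_real]
  rw [h1]
  refine norm_cfc_le (by positivity) (fun x hx => ?_)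
  have hx0 : 0 ≤ x := spectrum_nonneg_of_nonneg hP hx
  rw [Real.norm_eq_abs]
  rcases le_or_gt x ε with h | h
  · rw [max_eq_right h]
    have e1 : x ^ s ≤ ε ^ s := Real.rpow_le_rpow hx0 h hs.le
    have e2 : ε ^ (s - 1) * x ≤ x ^ s := by
      rcases hx0.eq_or_lt with h0 | h0
      · rw [← h0, mul_zero]; positivity
      · have e3 : ε ^ (s - 1) ≤ x ^ (s - 1) :=
          Real.rpow_le_rpow_of_nonpos h0 h (by linarith)
        calc ε ^ (s - 1) * x ≤ x ^ (s - 1) * x := by gcongr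
          _ = x ^ s := by
              rw [← Real.rpow_add_one h0.ne']; congr 1; ring
    have e4 : 0 ≤ ε ^ (s - 1) * x := by positivity
    rw [abs_le]; constructor <;> linarith
  · rw [max_eq_left h.le]
    have h0 : 0 < x := by linarith
    have : x ^ (s - 1) * x = x ^ s := by
      rw [← Real.rpow_add_one h0.ne']; congr 1; ring
    rw [this, sub_self, abs_zero]; positivity

end Pool.Agent.Lib.MP_a9e7a9_an
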