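import Pool.Agent.Lib.MP_a9e7a9_an.Cut

set_option autoImplicit false

namespace Pool.Agent.Lib.MP_a9e7a9_an

open NormedSpace Filter
open scoped InnerProductSpace

variable {H : Type*} [NormedAddCommGroup H] [InnerProductSpace ℂ H] [CompleteSpace H]

lemma rpow_ker {P : H →L[ℂ] H} (hP : 0 ≤ P) {s : ℝ} (hs : 0 < s) (hs1 : s ≤ 1) {y : H}
    (hy : P y = 0) : (P ^ s) y = 0 := by
  have hb : ∀ ε : ℝ, 0 < ε → ‖(P ^ s) y‖ ≤ ε ^ s * ‖y‖ := by
    intro ε hε
    obtain ⟨K, hK⟩ := rpow_approx hP hs hs1 hε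
    have h1 : (P ^ s) y = (P ^ s - K * P) y := by
      rw [sub_apply, mul_apply_eq_comp, hy, map_zero, sub_zero]
    rw [h1]
    exact (ContinuousLinearMap.le_opNorm _ _).trans (by gcongr)
  have hlim : Tendsto (fun ε : ℝ => ε ^ s * ‖y‖) (nhdsWithin 0 (Set.Ioi 0)) (nhds 0) := by
    have : Tendsto (fun ε : ℝ => ε ^ s * ‖y‖) (nhds 0) (nhds ((0 : ℝ) ^ s * ‖y‖)) := by
      apply Continuous.tendsto
      exact (Real.continuous_rpow_const hs.le).mul continuous_const
    rw [Real.zero_rpow hs.ne', zero_mul] at this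
    exact this.mono_left nhdsWithin_le_nhds
  have := ge_of_tendsto hlim (eventually_nhdsWithin_of_forall (fun ε hε => hb ε hε))
  exact norm_le_zero_iff.1 this

/-- An operator vanishing on the range and on the kernel of a self-adjoint operator is zero. -/
lemma eq_zero_of_range_ker {P C : H →L[ℂ] H} (hP : IsSelfAdjoint P) (h1 : C * P = 0)
    (h2 : ∀ y, P y = 0 → C y = 0) : C = 0 := by
  have h3 : P * star C = 0 := by
    have := congrArg star h1
    rwa [star_mul, hP.star_eq, star_zero] at this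
  have h4 : star C = 0 := by
    ext w
    have h5 : C ((star C) w) = 0 := by
      apply h2
      rw [← mul_apply_eq_comp, h3]; rfl
    have h6 : ⟪(star C) w, (star C) w⟫_ℂ = 0 := by
      rw [ContinuousLinearMap.star_eq_adjoint, ContinuousLinearMap.adjoint_inner_left]
      rw [ContinuousLinearMap.star_eq_adjoint] at h5
      rw [h5, inner_zero_right]
    rw [inner_self_eq_zero] at h6
    simpa using h6
  exact star_eq_zero.1 h4

lemma commute_of_fixed_polar {P V : H →L[ℂ] H} (hP : 0 ≤ P) (hV : ∀ y, P y = 0 → V y = 0)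
    {l : ℝ} (hl0 : 0 < l) (hl1 : l < 1)
    (h : P ^ l * V * P ^ (1 - l) + P ^ (1 - l) * V * P ^ l = 2 * (V * P)) :
    P * V = V * P := by
  have hPs : IsSelfAdjoint P := hP.isSelfAdjoint
  have hs := sandwich hP hl0 hl1 h
  set C := P * V - V * P with hC
  have hpos : ∀ s : ℝ, IsSelfAdjoint (P ^ s) := fun s => (CFC.rpow_nonneg (a := P) (y := s)).isSelfAdjoint
  have hCP : C * P = 0 := by
    ext x
    set z := C (P x) with hz
    have hPz : P z = 0 := by
      have : (P * C * P) x = 0 := by rw [hs]; rfl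
      exact this
    have h1 : (P ^ l) z = 0 := rpow_ker hP hl0 hl1.le hPz
    have h2 : (P ^ (1 - l)) z = 0 := rpow_ker hP (by linarith) (by linarith) hPz
    have hsym : ∀ (B : H →L[ℂ] H), IsSelfAdjoint B → B z = 0 → ∀ u : H, ⟪B u, z⟫_ℂ = 0 := by
      intro B hB hBz u
      have h3 : ⟪B u, z⟫_ℂ = ⟪u, B z⟫_ℂ := by
        have := ContinuousLinearMap.adjoint_inner_right B u z
        rw [← ContinuousLinearMap.star_eq_adjoint, hB.star_eq] at this
        exact this.symm
      rw [h3, hBz, inner_zero_right]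
    have h4 : ⟪(V * P) (P x), z⟫_ℂ = 0 := by
      have h5 : (2 : ℂ) * ⟪(V * P) (P x), z⟫_ℂ = 0 := by
        have h6 : (2 * (V * P)) (P x) = (V * P) (P x) + (V * P) (P x) := by
          rw [two_mul]; rfl
        have h7 : ⟪(2 * (V * P)) (P x), z⟫_ℂ = 2 * ⟪(V * P) (P x), z⟫_ℂ := by
          rw [h6, inner_add_left, two_mul]
        rw [← h7, ← h, add_apply, inner_add_left]
        have h8 : (P ^ l * V * P ^ (1 - l)) (P x) = (P ^ l) ((V * P ^ (1 - l)) (P x)) := rfl
        have h9 : (P ^ (1 - l) * V * P ^ l) (P x) = (P ^ (1 - l)) ((V * P ^ l) (P x)) := rfl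
        rw [h8, h9, hsym _ (hpos l) h1, hsym _ (hpos (1 - l)) h2, add_zero]
      simpa using h5
    have h5 : ⟪z, z⟫_ℂ = 0 := by
      have h6 : z = P (V (P x)) - (V * P) (P x) := rfl
      nth_rewrite 1 [h6]
      rw [inner_sub_left, h4, hsym P hPs hPz, sub_zero]
    rw [inner_self_eq_zero] at h5
    exact h5
  have hC0 : C = 0 := by
    refine eq_zero_of_range_ker hPs hCP (fun y hy => ?_)
    have : C y = P (V y) - V (P y) := rfl
    rw [this, hV y hy, hy, map_zero, map_zero, sub_zero]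
  rwa [hC, sub_eq_zero] at hC0

/-- The identity `P ^ l * P ^ (1 - l) = P` for `0 ≤ l ≤ 1`. -/
lemma rpow_mul_rpow_one_sub {P : H →L[ℂ] H} (hP : 0 ≤ P) {l : ℝ} (hl0 : 0 ≤ l) (hl1 : l ≤ 1) :
    P ^ l * P ^ (1 - l) = P := by
  have hc1 : Continuous (fun x : ℝ => x ^ l) := Real.continuous_rpow_const hl0
  have hc2 : Continuous (fun x : ℝ => x ^ (1 - l)) := Real.continuous_rpow_const (by linarith)
  rw [CFC.rpow_eq_cfc_real, CFC.rpow_eq_cfc_real,
    ← cfc_mul (fun x : ℝ => x ^ l) (fun x => x ^ (1 - l)) P hc1.continuousOn hc2.continuousOn]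
  conv_rhs => rw [← cfc_id' ℝ P]
  refine cfc_congr (fun x hx => ?_)
  have hx0 : 0 ≤ x := spectrum_nonneg_of_nonneg hP hx
  rcases hx0.eq_or_lt with h0 | h0
  · rw [← h0]
    rcases hl0.eq_or_lt with h1 | h1
    · rw [← h1]; simp
    · rw [Real.zero_rpow h1.ne', zero_mul]
  · rw [← Real.rpow_add h0, add_sub_cancel, Real.rpow_one]

lemma commute_rpow {P V : H →L[ℂ] H} (hP : 0 ≤ P) (h : P * V = V * P) (s : ℝ) :
    P ^ s * V = V * P ^ s := by
  rw [CFC.rpow_eq_cfc_real]
  have h1 : Commute P V := h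
  exact (h1.cfc_real _).eq

end Pool.Agent.Lib.MP_a9e7a9_an
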