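import Mathlib

set_option autoImplicit false

namespace Pool.Agent.Lib.MP_a9e7a9_an

open NormedSpace Filter
open scoped Nat

section General

variable {R : Type*} [NormedRing R] [NormedAlgebra ℂ R] [CompleteSpace R]

/-- `(exp d - 1) / d` -/
noncomputable def psi (d : R) : R := ∑' n : ℕ, ((n + 1).factorial⁻¹ : ℂ) • d ^ n

/-- `(exp d - 1 - d) / d ^ 2` -/
noncomputable def psi2 (d : R) : R := ∑' n : ℕ, ((n + 2).factorial⁻¹ : ℂ) • d ^ n

lemma summable_psi (d : R) : Summable (fun n : ℕ => ((n + 1).factorial⁻¹ : ℂ) • d ^ n) := by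
  have h := norm_expSeries_summable' (𝕂 := ℂ) d
  refine Summable.of_norm_bounded h (fun n => ?_)
  rw [norm_smul, norm_smul]
  gcongr
  rw [norm_inv, norm_inv, Complex.norm_natCast, Complex.norm_natCast]
  gcongr
  exact Nat.le_succ n

lemma summable_psi2 (d : R) : Summable (fun n : ℕ => ((n + 2).factorial⁻¹ : ℂ) • d ^ n) := by
  have h := norm_expSeries_summable' (𝕂 := ℂ) d
  refine Summable.of_norm_bounded h (fun n => ?_)
  rw [norm_smul, norm_smul]
  gcongr
  rw [norm_inv, norm_inv, Complex.norm_natCast, Complex.norm_natCast]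
  gcongr
  exact Nat.le_add_right n 2

lemma exp_eq_psi (d : R) : exp d = 1 + d * psi d := by
  have h1 : exp d = ∑' n : ℕ, ((n.factorial⁻¹ : ℂ)) • d ^ n := by
    rw [exp_eq_tsum ℂ]
  rw [h1, (expSeries_summable' (𝕂 := ℂ) d).tsum_eq_zero_add]
  congr 1
  · simp
  · rw [psi, ← (summable_psi d).tsum_mul_left]
    refine tsum_congr (fun n => ?_)
    rw [mul_smul_comm, pow_succ']

lemma psi_eq_psi2 (d : R) : psi d = 1 + d * psi2 d := by
  rw [psi, (summable_psi d).tsum_eq_zero_add]
  congr 1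
  · simp
  · rw [psi2, ← (summable_psi2 d).tsum_mul_left]
    refine tsum_congr (fun n => ?_)
    rw [mul_smul_comm, pow_succ']

end General

section Comm

variable {R : Type*} [NormedCommRing R] [NormedAlgebra ℂ R] [CompleteSpace R] [NormOneClass R]

/-- The two real numbers `e^{lx} + e^{(1-l)x}` and `2` differ for real `x ≠ 0`. -/
lemma exp_add_exp_ne_two {l x : ℝ} (hl0 : 0 < l) (hl1 : l < 1) (hx : x ≠ 0) :
    Real.exp (l * x) + Real.exp ((1 - l) * x) ≠ 2 := by
  rcases lt_or_gt_of_ne hx with h | h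
  · have h1 : Real.exp (l * x) < 1 := by
      rw [Real.exp_lt_one_iff]; exact mul_neg_of_pos_of_neg hl0 h
    have h2 : Real.exp ((1 - l) * x) < 1 := by
      rw [Real.exp_lt_one_iff]; exact mul_neg_of_pos_of_neg (by linarith) h
    linarith
  · have h1 : 1 < Real.exp (l * x) := by
      rw [Real.one_lt_exp_iff]; exact mul_pos hl0 h
    have h2 : 1 < Real.exp ((1 - l) * x) := by
      rw [Real.one_lt_exp_iff]; exact mul_pos (by linarith) h
    linarith

/-- the cofactor of `d` in `exp (l d) + exp ((1 - l) d) - 2` -/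
noncomputable def ww (l : ℝ) (d : R) : R :=
  (l : ℂ) • psi ((l : ℂ) • d) + ((1 - l : ℝ) : ℂ) • psi (((1 - l : ℝ) : ℂ) • d)

omit [NormOneClass R] in
lemma mul_ww (l : ℝ) (d : R) :
    exp ((l : ℂ) • d) + exp (((1 - l : ℝ) : ℂ) • d) - 2 = d * ww l d := by
  rw [exp_eq_psi ((l : ℂ) • d), exp_eq_psi (((1 - l : ℝ) : ℂ) • d), ww, mul_add, smul_mul_assoc,
    smul_mul_assoc, mul_smul_comm, mul_smul_comm]
  ring

/-- In a commutative Banach algebra, if `exp (± i d)` are contractions then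
`(exp (l d) + exp ((1 - l) d) - 2) / d` is invertible. -/
lemma isUnit_w (d : R) (h1 : ‖exp (Complex.I • d)‖ ≤ 1)
    (h2 : ‖exp (-(Complex.I • d))‖ ≤ 1) {l : ℝ} (hl0 : 0 < l) (hl1 : l < 1) :
    IsUnit (ww l d) := by
  by_contra hcon
  obtain ⟨χ, hχ⟩ := WeakDual.CharacterSpace.exists_apply_eq_zero hcon
  have hnorm : ∀ a : R, ‖χ a‖ ≤ ‖a‖ := fun a => AlgHom.norm_apply_le_self χ a
  have hcont : Continuous χ := map_continuous χ
  have hexp : ∀ a : R, χ (exp a) = Complex.exp (χ a) := by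
    intro a
    rw [Complex.exp_eq_exp_ℂ]
    let _ : NormedAlgebra ℚ R := NormedAlgebra.restrictScalars ℚ ℂ R
    exact map_exp χ hcont a
  set x : ℂ := χ d with hx
  have him : x.im = 0 := by
    have e1 := (hnorm _).trans h1
    have e2 := (hnorm _).trans h2
    rw [hexp, Complex.norm_exp] at e1 e2
    rw [map_smul, smul_eq_mul, ← hx, Real.exp_le_one_iff] at e1
    rw [map_neg, map_smul, smul_eq_mul, ← hx, Real.exp_le_one_iff] at e2
    simp at e1 e2
    linarith
  have hxr : x = ((x.re : ℝ) : ℂ) := by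
    apply Complex.ext <;> simp [him]
  by_cases h0 : x = 0
  · have hpsi : ∀ c : ℂ, χ (psi (c • d)) = 1 := by
      intro c
      rw [psi_eq_psi2, map_add, map_mul, map_smul, ← hx, h0]
      simp
    rw [ww, map_add, map_smul, map_smul, hpsi, hpsi] at hχ
    simp at hχ
  · have h3 : χ (exp ((l : ℂ) • d) + exp (((1 - l : ℝ) : ℂ) • d) - 2) = 0 := by
      rw [mul_ww, map_mul, hχ, mul_zero]
    rw [map_sub, map_add, hexp, hexp, map_smul, map_smul, ← hx, hxr] at h3
    have h4 : χ (2 : R) = 2 := map_ofNat χ 2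
    rw [h4] at h3
    simp only [smul_eq_mul] at h3
    have h5 : ((Real.exp (l * x.re) + Real.exp ((1 - l) * x.re) : ℝ) : ℂ) = ((2 : ℝ) : ℂ) := by
      push_cast
      push_cast at h3
      linear_combination h3
    rw [Complex.ofReal_inj] at h5
    refine exp_add_exp_ne_two hl0 hl1 (fun h => h0 ?_) h5
    rw [hxr, h, Complex.ofReal_zero]

end Comm

end Pool.Agent.Lib.MP_a9e7a9_an
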